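import Mathlib

/-!
# A detailed-balance jump semigroup in a weighted `L¹` space need not be uniformly bounded
-/

set_option autoImplicit false

open MeasureTheory Filter Topology
open scoped ENNReal NNReal

namespace Pool.Agent.Results.MP_ae1cd8_an.NotUniformlyBounded

/-- The total rate `σ x = ∫ p (y, x) ν(dy)`. -/
noncomputable def rate {Ω : Type} [MeasurableSpace Ω] (ν : Measure Ω) (p : Ω → Ω → ℝ) (x : Ω) :
    ℝ≥0∞ := ∫⁻ y, ENNReal.ofReal (p y x) ∂ν

/-- The rate `σ̂ y = ∫ p (y, x) ν(dx)`. -/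
noncomputable def backRate {Ω : Type} [MeasurableSpace Ω] (ν : Measure Ω) (p : Ω → Ω → ℝ)
    (y : Ω) : ℝ≥0∞ := ∫⁻ x, ENNReal.ofReal (p y x) ∂ν

/-- The standing assumptions: a `σ`-finite measure space, a measurable nonnegative kernel, a
positive measurable weight with the detailed balance condition, `0 < σ < ∞` almost everywhere and
the condition (A). -/
structure Assumptions {Ω : Type} [MeasurableSpace Ω] (ν : Measure Ω) (p : Ω → Ω → ℝ)
    (ω : Ω → ℝ) : Prop where
  sigmaFinite : SigmaFinite ν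
  nonneg : ∀ x y, 0 ≤ p x y
  measurable_kernel : Measurable (Function.uncurry p)
  pos : ∀ x, 0 < ω x
  measurable_weight : Measurable ω
  balance : ∀ x y, ω x * p x y = ω y * p y x
  rate_pos : ∀ᵐ x ∂ν, 0 < rate ν p x ∧ rate ν p x < ∞
  condA : ∃ C : ℝ≥0, ∀ y, backRate ν p y ≤ C * (1 + rate ν p y)

/-- The measure `μ = ω ν`. -/
noncomputable def mu {Ω : Type} [MeasurableSpace Ω] (ν : Measure Ω) (ω : Ω → ℝ) : Measure Ω :=
  ν.withDensity fun x => ENNReal.ofReal (ω x)

/-- `f` belongs to the domain of `M₁` and `g = U₁ f = M₁ f + P f`. -/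
def OperatorGraph {Ω : Type} [MeasurableSpace Ω] (ν : Measure Ω) (p : Ω → Ω → ℝ) (ω : Ω → ℝ)
    (f g : Lp ℂ 1 (mu ν ω)) : Prop :=
  Integrable (fun x => (((rate ν p x).toReal : ℝ) : ℂ) * f x) (mu ν ω) ∧
    ∀ᵐ x ∂(mu ν ω), g x = -((((rate ν p x).toReal : ℝ) : ℂ) * f x) +
      ∫ y, ((p x y : ℝ) : ℂ) * f y ∂ν

/-- `T` is a `C₀`-semigroup on `X`. -/
structure IsC0Semigroup {X : Type} [NormedAddCommGroup X] [NormedSpace ℂ X]
    (T : ℝ → X →L[ℂ] X) : Prop where
  zero : T 0 = ContinuousLinearMap.id ℂ X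
  add : ∀ s t, 0 ≤ s → 0 ≤ t → T (s + t) = (T s).comp (T t)
  cont : ∀ f, Tendsto (fun t => T t f) (𝓝[>] 0) (𝓝 f)

/-- The operator with graph `U` is the generator of `T`. -/
def Generates {X : Type} [NormedAddCommGroup X] [NormedSpace ℂ X] (U : X → X → Prop)
    (T : ℝ → X →L[ℂ] X) : Prop :=
  ∀ f g, Tendsto (fun t : ℝ => ((t : ℂ))⁻¹ • (T t f - f)) (𝓝[>] 0) (𝓝 g) ↔ U f g

/-- The operator with graph `U` generates a uniformly bounded `C₀`-semigroup. -/
def GeneratesBounded {X : Type} [NormedAddCommGroup X] [NormedSpace ℂ X] (U : X → X → Prop) :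
    Prop :=
  ∃ (T : ℝ → X →L[ℂ] X) (M : ℝ), IsC0Semigroup T ∧ Generates U T ∧ ∀ t, 0 ≤ t → ‖T t‖ ≤ M

/-- The kernel is irreducible: no set of positive measure with a complement of positive measure
is closed. -/
def Irreducible {Ω : Type} [MeasurableSpace Ω] (ν : Measure Ω) (p : Ω → Ω → ℝ) : Prop :=
  ∀ A : Set Ω, MeasurableSet A → ν A ≠ 0 → ν Aᶜ ≠ 0 →
    ∫⁻ x in A, ∫⁻ y in Aᶜ, ENNReal.ofReal (p x y) ∂ν ∂ν ≠ 0

/-! ### The abstract estimate -/

section abstract

variable {X : Type} [NormedAddCommGroup X] [NormedSpace ℂ X]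

lemma abstract_bound {T : ℝ → X →L[ℂ] X} (hT : IsC0Semigroup T) {M : ℝ}
    (hM : ∀ t, 0 ≤ t → ‖T t‖ ≤ M) {U : X → X → Prop} (hU : Generates U T)
    {u ψ r : X} (hu : U u 0) (hψ : U ψ (u - r)) : ‖u‖ ≤ M * ‖r‖ := by
  have hM0 : 0 ≤ M := (norm_nonneg _).trans (hM 0 le_rfl)
  have bound : ∀ t, 0 ≤ t → ∀ f, ‖T t f‖ ≤ M * ‖f‖ := fun t ht f =>
    ((T t).le_opNorm f).trans (mul_le_mul_of_nonneg_right (hM t ht) (norm_nonneg _))
  -- continuity
  have cont : ∀ (f : X) (b : ℝ), ContinuousOn (fun t => T t f) (Set.Icc 0 b) := by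
    intro f b
    rw [Metric.continuousOn_iff]
    intro t ht ε hε
    have h1 := hT.cont f
    rw [Metric.tendsto_nhdsWithin_nhds] at h1
    obtain ⟨δ, hδ, h2⟩ := h1 (ε / (M + 1)) (by positivity)
    refine ⟨δ, hδ, fun s hs hst => ?_⟩
    have key : ∀ a b : ℝ, 0 ≤ a → a ≤ b → dist b a < δ → ‖T b f - T a f‖ < ε := by
      intro a b ha hab hd
      rcases eq_or_lt_of_le hab with h | h
      · subst h; simpa using hε
      · have e : T b f - T a f = T a (T (b - a) f - f) := by
          have := hT.add a (b - a) ha (by linarith)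
          rw [add_sub_cancel] at this
          rw [this, map_sub]
          rfl
        rw [e]
        have h3 := h2 (x := b - a) (by simpa using h) (by
          rw [Real.dist_eq] at hd ⊢
          simpa using hd)
        rw [dist_eq_norm] at h3
        calc ‖T a (T (b - a) f - f)‖ ≤ M * ‖T (b - a) f - f‖ := bound a ha _
          _ ≤ (M + 1) * ‖T (b - a) f - f‖ := by
              apply mul_le_mul_of_nonneg_right (by linarith) (norm_nonneg _)
          _ < (M + 1) * (ε / (M + 1)) := by
              apply mul_lt_mul_of_pos_left h3 (by linarith)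
          _ = ε := by field_simp
    rw [dist_eq_norm]
    rcases le_total s t with h | h
    · rw [norm_sub_rev]
      exact key s t hs.1 h (by rwa [dist_comm])
    · exact key t s ht.1 h hst
  -- right derivative
  have der : ∀ f g, U f g → ∀ t, 0 ≤ t → HasDerivWithinAt (fun t => T t f) (T t g) (Set.Ici t) t := by
    intro f g hfg t ht
    have h1 := (hU f g).mpr hfg
    rw [hasDerivWithinAt_iff_tendsto_slope]
    have hset : Set.Ici t \ {t} = Set.Ioi t := by
      ext x; simp [lt_iff_le_and_ne]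
    rw [hset]
    have h2 : Tendsto (fun s : ℝ => s - t) (𝓝[>] t) (𝓝[>] 0) := by
      apply tendsto_nhdsWithin_of_tendsto_nhds_of_eventually_within
      · have : Tendsto (fun s : ℝ => s - t) (𝓝 t) (𝓝 (t - t)) :=
          (continuous_id.sub continuous_const).tendsto t
        rw [sub_self] at this
        exact this.mono_left nhdsWithin_le_nhds
      · filter_upwards [self_mem_nhdsWithin] with s hs
        simpa using hs
    have h3 := ((T t).continuous.tendsto g).comp (h1.comp h2)
    refine h3.congr' ?_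
    filter_upwards [self_mem_nhdsWithin] with s hs
    have hs' : t < s := hs
    simp only [Function.comp, slope, vsub_eq_sub]
    have e : T s f - T t f = T t (T (s - t) f - f) := by
      have := hT.add t (s - t) ht (by linarith)
      rw [add_sub_cancel] at this
      rw [this, map_sub]
      rfl
    rw [e, map_smul]
    rw [← Complex.ofReal_inv, Complex.coe_smul]
  -- the stationary vector
  have hstat : ∀ t, 0 ≤ t → T t u = u := by
    intro t ht
    have := norm_image_sub_le_of_norm_deriv_right_le_segment (f := fun t => T t u)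
      (f' := fun t => T t 0) (C := 0) (a := 0) (b := t) (cont u t)
      (fun x hx => der u 0 hu x hx.1) (fun x _ => by simp) t ⟨ht, le_rfl⟩
    rw [zero_mul, norm_le_zero_iff, hT.zero] at this
    simpa [sub_eq_zero] using this
  -- the main estimate
  have main : ∀ t, 0 ≤ t → ‖T t ψ - t • u - ψ‖ ≤ M * ‖r‖ * t := by
    intro t ht
    have := norm_image_sub_le_of_norm_deriv_right_le_segment (f := fun t => T t ψ - t • u)
      (f' := fun t => T t (u - r) - (1 : ℝ) • u) (C := M * ‖r‖) (a := 0) (b := t)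
      ((cont ψ t).sub (by fun_prop))
      (fun x hx => (der ψ _ hψ x hx.1).sub (((hasDerivAt_id x).smul_const u).hasDerivWithinAt))
      (fun x hx => by
        rw [map_sub, hstat x hx.1, one_smul, sub_right_comm, sub_self, zero_sub, norm_neg]
        exact bound x hx.1 r) t ⟨ht, le_rfl⟩
    simpa [hT.zero] using this
  by_contra hcon
  push Not at hcon
  obtain ⟨n, hn⟩ := exists_nat_gt ((M + 1) * ‖ψ‖ / (‖u‖ - M * ‖r‖))
  have hpos : 0 < ‖u‖ - M * ‖r‖ := by linarith
  rw [div_lt_iff₀ hpos] at hn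
  have h1 := main n (Nat.cast_nonneg n)
  have h2 : ‖(n : ℝ) • u‖ ≤ ‖T n ψ‖ + ‖ψ‖ + ‖T n ψ - (n : ℝ) • u - ψ‖ := by
    have : (n : ℝ) • u = T n ψ - ψ - (T n ψ - (n : ℝ) • u - ψ) := by abel
    calc ‖(n : ℝ) • u‖ = ‖T n ψ - ψ - (T n ψ - (n : ℝ) • u - ψ)‖ := by rw [← this]
      _ ≤ ‖T n ψ - ψ‖ + ‖T n ψ - (n : ℝ) • u - ψ‖ := norm_sub_le _ _
      _ ≤ _ := by gcongr; exact norm_sub_le _ _
  have h3 := bound n (Nat.cast_nonneg n) ψ
  rw [norm_smul, Real.norm_of_nonneg (Nat.cast_nonneg n)] at h2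
  nlinarith

end abstract

/-! ### The example -/

/-- The reference measure on `ℕ`. -/
noncomputable def nu : Measure ℕ := Measure.count.withDensity fun k => ENNReal.ofReal ((1 / 4) ^ k)

/-- The kernel. -/
noncomputable def ker (x y : ℕ) : ℝ := if x = 0 then (1 / 2) ^ y else if y = 0 then 1 else 0

/-- The weight. -/
noncomputable def wt (x : ℕ) : ℝ := (1 / 2) ^ x

lemma nu_singleton (k : ℕ) : nu {k} = ENNReal.ofReal ((1 / 4) ^ k) := by
  unfold nu
  rw [withDensity_apply _ (measurableSet_singleton k), Measure.restrict_singleton,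
    lintegral_smul_measure, lintegral_dirac]
  simp

lemma mu_singleton (k : ℕ) : mu nu wt {k} = ENNReal.ofReal ((1 / 8) ^ k) := by
  unfold mu
  rw [withDensity_apply _ (measurableSet_singleton k), Measure.restrict_singleton,
    lintegral_smul_measure, lintegral_dirac, nu_singleton, smul_eq_mul,
    ← ENNReal.ofReal_mul (by positivity)]
  congr 1
  unfold wt
  rw [← mul_pow]
  norm_num

lemma ker_nonneg (x y : ℕ) : 0 ≤ ker x y := by
  unfold ker
  split_ifs <;> positivity

lemma geom_tsum {q : ℝ} (h0 : 0 ≤ q) (h1 : q < 1) :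
    ∑' k : ℕ, ENNReal.ofReal (q ^ k) = ENNReal.ofReal ((1 - q)⁻¹) := by
  rw [← ENNReal.ofReal_tsum_of_nonneg (fun k => by positivity)
    (summable_geometric_of_lt_one h0 h1), tsum_geometric_of_lt_one h0 h1]

lemma rate_zero : rate nu ker 0 = ENNReal.ofReal (4 / 3) := by
  unfold rate
  rw [lintegral_countable']
  have : ∀ k, ENNReal.ofReal (ker k 0) * nu {k} = ENNReal.ofReal ((1 / 4) ^ k) := by
    intro k
    rw [nu_singleton, ← ENNReal.ofReal_mul (ker_nonneg _ _)]
    congr 1
    unfold ker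
    split_ifs <;> simp_all
  simp_rw [this]
  rw [geom_tsum (by norm_num) (by norm_num)]
  norm_num

lemma rate_succ {x : ℕ} (hx : x ≠ 0) : rate nu ker x = ENNReal.ofReal ((1 / 2) ^ x) := by
  unfold rate
  rw [lintegral_countable', tsum_eq_single 0]
  · rw [nu_singleton]
    simp [ker]
  · intro y hy
    simp [ker, hx, hy]

lemma backRate_zero : backRate nu ker 0 = ENNReal.ofReal (8 / 7) := by
  unfold backRate
  rw [lintegral_countable']
  have : ∀ k, ENNReal.ofReal (ker 0 k) * nu {k} = ENNReal.ofReal ((1 / 8) ^ k) := by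
    intro k
    rw [nu_singleton, ← ENNReal.ofReal_mul (ker_nonneg _ _)]
    congr 1
    unfold ker
    rw [if_pos rfl, ← mul_pow]
    norm_num
  simp_rw [this]
  rw [geom_tsum (by norm_num) (by norm_num)]
  norm_num

lemma backRate_succ {x : ℕ} (hx : x ≠ 0) : backRate nu ker x = 1 := by
  unfold backRate
  rw [lintegral_countable', tsum_eq_single 0]
  · rw [nu_singleton]
    simp [ker]
  · intro y hy
    simp [ker, hx, hy]

lemma rate_le (x : ℕ) : rate nu ker x ≤ 2 := by
  by_cases hx : x = 0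
  · subst hx
    rw [rate_zero]
    calc ENNReal.ofReal (4 / 3) ≤ ENNReal.ofReal 2 := ENNReal.ofReal_le_ofReal (by norm_num)
      _ = 2 := by simp
  · rw [rate_succ hx]
    calc ENNReal.ofReal ((1 / 2) ^ x) ≤ ENNReal.ofReal 2 := by
          apply ENNReal.ofReal_le_ofReal
          calc ((1 : ℝ) / 2) ^ x ≤ 1 := pow_le_one₀ (by norm_num) (by norm_num)
            _ ≤ 2 := by norm_num
      _ = 2 := by simp

lemma backRate_le (x : ℕ) : backRate nu ker x ≤ 2 := by
  by_cases hx : x = 0
  · subst hx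
    rw [backRate_zero]
    calc ENNReal.ofReal (8 / 7) ≤ ENNReal.ofReal 2 := ENNReal.ofReal_le_ofReal (by norm_num)
      _ = 2 := by simp
  · rw [backRate_succ hx]
    norm_num

lemma rate_pos (x : ℕ) : 0 < rate nu ker x := by
  by_cases hx : x = 0
  · subst hx
    rw [rate_zero]
    simp
  · rw [rate_succ hx]
    simp

lemma nu_univ : nu Set.univ = ENNReal.ofReal (4 / 3) := by
  rw [← lintegral_one, lintegral_countable']
  simp_rw [nu_singleton, one_mul]
  rw [geom_tsum (by norm_num) (by norm_num)]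
  norm_num

lemma assumptions : Assumptions nu ker wt where
  sigmaFinite := by
    have : IsFiniteMeasure nu := ⟨by rw [nu_univ]; exact ENNReal.ofReal_lt_top⟩
    infer_instance
  nonneg := ker_nonneg
  measurable_kernel := measurable_of_countable _
  pos := fun x => by unfold wt; positivity
  measurable_weight := measurable_from_top
  balance := by
    intro x y
    unfold wt ker
    by_cases hx : x = 0 <;> by_cases hy : y = 0 <;> simp [hx, hy]
  rate_pos := Eventually.of_forall fun x => ⟨rate_pos x, (rate_le x).trans_lt (by simp)⟩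
  condA := by
    refine ⟨2, fun y => ?_⟩
    calc backRate nu ker y ≤ 2 * 1 := by rw [mul_one]; exact backRate_le y
      _ ≤ ((2 : ℝ≥0) : ℝ≥0∞) * (1 + rate nu ker y) := by
        gcongr
        · simp
        · exact le_self_add

lemma irreducible : Irreducible nu ker := by
  intro A hA h1 h2 h3
  have key : ∀ x ∈ A, ∀ y ∈ Aᶜ, 0 < ker x y → False := by
    intro x hx y hy hk
    have hle : ENNReal.ofReal (ker x y) * nu {y} * nu {x} ≤
        ∫⁻ x in A, ∫⁻ y in Aᶜ, ENNReal.ofReal (ker x y) ∂nu ∂nu := by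
      calc ENNReal.ofReal (ker x y) * nu {y} * nu {x}
          ≤ (∫⁻ y in Aᶜ, ENNReal.ofReal (ker x y) ∂nu) * nu {x} := by
            gcongr
            calc ENNReal.ofReal (ker x y) * nu {y}
                = ∫⁻ y in {y}, ENNReal.ofReal (ker x y) ∂nu := by
                  rw [Measure.restrict_singleton, lintegral_smul_measure, lintegral_dirac,
                    smul_eq_mul, mul_comm]
              _ ≤ _ := lintegral_mono_set (Set.singleton_subset_iff.mpr hy)
        _ = ∫⁻ x in {x}, ∫⁻ y in Aᶜ, ENNReal.ofReal (ker x y) ∂nu ∂nu := by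
            rw [Measure.restrict_singleton, lintegral_smul_measure, lintegral_dirac,
              smul_eq_mul, mul_comm]
        _ ≤ _ := lintegral_mono_set (Set.singleton_subset_iff.mpr hx)
    rw [h3, nonpos_iff_eq_zero, nu_singleton, nu_singleton] at hle
    simp only [mul_eq_zero, ENNReal.ofReal_eq_zero, not_le.mpr hk, false_or] at hle
    rcases hle with h | h <;>
    exact absurd h (not_le.mpr (by positivity))
  have n1 : A.Nonempty := by
    rw [Set.nonempty_iff_ne_empty]
    rintro rfl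
    simp at h1
  have n2 : Aᶜ.Nonempty := by
    rw [Set.nonempty_iff_ne_empty]
    intro h
    rw [h] at h2
    simp at h2
  obtain ⟨x, hx⟩ := n1
  obtain ⟨y, hy⟩ := n2
  by_cases h0 : (0 : ℕ) ∈ A
  · exact key 0 h0 y hy (by simp [ker])
  · refine key x hx 0 h0 ?_
    unfold ker
    split_ifs <;> simp_all

lemma ae_iff (P : ℕ → Prop) : (∀ᵐ x ∂(mu nu wt), P x) ↔ ∀ x, P x := by
  rw [ae_iff_of_countable]
  refine forall_congr' fun x => ?_
  rw [mu_singleton]
  simp

lemma integrable_of {F : ℕ → ℂ} {C q : ℝ} (hq0 : 0 ≤ q) (hq : q < 8)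
    (hF : ∀ k, ‖F k‖ ≤ C * q ^ k) : Integrable F (mu nu wt) := by
  refine ⟨Measurable.aestronglyMeasurable measurable_from_top, ?_⟩
  have hC : 0 ≤ C := by
    have := hF 0
    simp only [pow_zero, mul_one] at this
    exact (norm_nonneg _).trans this
  unfold HasFiniteIntegral
  rw [lintegral_countable']
  calc ∑' k, ‖F k‖ₑ * mu nu wt {k} ≤ ∑' k, ENNReal.ofReal C * ENNReal.ofReal ((q / 8) ^ k) := by
        apply ENNReal.tsum_le_tsum
        intro k
        rw [mu_singleton, ← ofReal_norm, ← ENNReal.ofReal_mul (norm_nonneg _),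
          ← ENNReal.ofReal_mul hC]
        apply ENNReal.ofReal_le_ofReal
        calc ‖F k‖ * (1 / 8) ^ k ≤ C * q ^ k * (1 / 8) ^ k := by
              gcongr
              exact hF k
          _ = C * (q / 8) ^ k := by rw [mul_assoc, ← mul_pow]; ring_nf
    _ = ENNReal.ofReal C * ENNReal.ofReal ((1 - q / 8)⁻¹) := by
        rw [ENNReal.tsum_mul_left, geom_tsum (by positivity) (by linarith)]
    _ < ∞ := ENNReal.mul_lt_top ENNReal.ofReal_lt_top ENNReal.ofReal_lt_top

/-- The values of `U₁` in the example. -/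
lemma graph_of {F G : ℕ → ℂ} {C q : ℝ} (hq0 : 0 ≤ q) (hq : q < 8)
    (hF : ∀ k, ‖F k‖ ≤ C * q ^ k) (hG : Integrable G (mu nu wt))
    (h0 : G 0 = -((4 / 3 : ℝ) : ℂ) * F 0 + ∑' k : ℕ, (((1 / 8 : ℝ) ^ k : ℝ) : ℂ) * F k)
    (h1 : ∀ k, k ≠ 0 → G k = -(((1 / 2 : ℝ) ^ k : ℝ) : ℂ) * F k + F 0) :
    OperatorGraph nu ker wt ((integrable_of hq0 hq hF).toL1 F) (hG.toL1 G) := by
  have hint := integrable_of hq0 hq hF
  have e1 : ∀ x, (hint.toL1 F) x = F x := (ae_iff _).mp hint.coeFn_toL1
  have e2 : ∀ x, (hG.toL1 G) x = G x := (ae_iff _).mp hG.coeFn_toL1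
  have hC : 0 ≤ C := by
    have := hF 0
    simp only [pow_zero, mul_one] at this
    exact (norm_nonneg _).trans this
  refine ⟨?_, ?_⟩
  · simp_rw [e1]
    apply integrable_of (C := 2 * C) hq0 hq
    intro k
    rw [norm_mul, Complex.norm_real, Real.norm_of_nonneg ENNReal.toReal_nonneg, mul_assoc]
    apply mul_le_mul _ (hF k) (norm_nonneg _) (by norm_num)
    exact ENNReal.toReal_le_of_le_ofReal (by norm_num) (by simpa using rate_le k)
  · rw [ae_iff]
    intro x
    simp_rw [e1]
    rw [e2]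
    by_cases hx : x = 0
    · subst hx
      rw [rate_zero, ENNReal.toReal_ofReal (by norm_num), h0, neg_mul]
      congr 1
      have hi : Integrable (fun y => ((ker 0 y : ℝ) : ℂ) * F y) nu := by
        refine ⟨Measurable.aestronglyMeasurable measurable_from_top, ?_⟩
        unfold HasFiniteIntegral
        rw [lintegral_countable']
        have h3 := hint.2
        unfold HasFiniteIntegral at h3
        rw [lintegral_countable'] at h3
        refine lt_of_le_of_lt (le_of_eq ?_) h3
        apply tsum_congr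
        intro k
        rw [mu_singleton, nu_singleton, ← ofReal_norm, ← ofReal_norm,
          ← ENNReal.ofReal_mul (norm_nonneg _), ← ENNReal.ofReal_mul (norm_nonneg _)]
        congr 1
        rw [norm_mul, Complex.norm_real, Real.norm_of_nonneg (ker_nonneg _ _)]
        simp only [ker, if_true]
        rw [mul_right_comm, ← mul_pow, mul_comm]
        norm_num
      rw [integral_countable hi]
      apply tsum_congr
      intro k
      rw [Measure.real, nu_singleton, ENNReal.toReal_ofReal (by positivity)]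
      simp only [ker, if_true]
      rw [Complex.real_smul, ← mul_assoc, ← Complex.ofReal_mul, ← mul_pow]
      norm_num
    · rw [rate_succ hx, ENNReal.toReal_ofReal (by positivity), h1 x hx, neg_mul]
      congr 1
      have e3 : (fun y => ((ker x y : ℝ) : ℂ) * F y) = Set.indicator {0} F := by
        funext y
        by_cases hy : y = 0
        · subst hy; simp [ker, hx]
        · simp [ker, hx, hy]
      rw [e3, integral_indicator (measurableSet_singleton 0), Measure.restrict_singleton,
        integral_smul_measure, integral_dirac, nu_singleton]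
      simp

/-- The stationary density. -/
noncomputable def u (k : ℕ) : ℂ := (2 : ℂ) ^ k

lemma norm_u (k : ℕ) : ‖u k‖ ≤ 1 * 2 ^ k := by simp [u]

/-- The auxiliary function. -/
noncomputable def ψ (n k : ℕ) : ℂ :=
  (if k = 0 then 0 else -(4 : ℂ) ^ k) + if k = n + 1 then 2 * (8 : ℂ) ^ (n + 1) else 0

/-- The remainder. -/
noncomputable def r (n k : ℕ) : ℂ := if k = n + 1 then 2 * (4 : ℂ) ^ (n + 1) else 0

lemma norm_ψ (n k : ℕ) : ‖ψ n k‖ ≤ (1 + 2 * 8 ^ (n + 1)) * 4 ^ k := by
  have h4 : (1 : ℝ) ≤ 4 ^ k := one_le_pow₀ (by norm_num)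
  have h8 : (0 : ℝ) < 8 ^ (n + 1) := by positivity
  have a1 : ‖(if k = 0 then 0 else -(4 : ℂ) ^ k)‖ ≤ 4 ^ k := by
    split_ifs
    · simp
    · rw [norm_neg, norm_pow]; simp
  have a2 : ‖(if k = n + 1 then 2 * (8 : ℂ) ^ (n + 1) else 0)‖ ≤ 2 * 8 ^ (n + 1) := by
    split_ifs
    · rw [norm_mul, norm_pow]; simp
    · rw [norm_zero]; positivity
  calc ‖ψ n k‖ ≤ _ + _ := norm_add_le _ _
    _ ≤ 4 ^ k + 2 * 8 ^ (n + 1) := add_le_add a1 a2
    _ ≤ (1 + 2 * 8 ^ (n + 1)) * 4 ^ k := by nlinarith

lemma norm_r (n k : ℕ) : ‖r n k‖ ≤ (2 * 4 ^ (n + 1)) * 1 ^ k := by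
  unfold r
  rw [one_pow, mul_one]
  split_ifs
  · rw [norm_mul, norm_pow]; simp
  · rw [norm_zero]; positivity

lemma tsum_u : ∑' k : ℕ, (((1 / 8 : ℝ) ^ k : ℝ) : ℂ) * u k = ((4 / 3 : ℝ) : ℂ) := by
  have : ∀ k : ℕ, (((1 / 8 : ℝ) ^ k : ℝ) : ℂ) * u k = (((1 / 4 : ℝ) ^ k : ℝ) : ℂ) := by
    intro k
    unfold u
    push_cast
    rw [← mul_pow]
    norm_num
  simp_rw [this]
  rw [← Complex.ofReal_tsum, tsum_geometric_of_lt_one (by norm_num) (by norm_num)]
  norm_num

lemma tsum_ψ (n : ℕ) : ∑' k : ℕ, (((1 / 8 : ℝ) ^ k : ℝ) : ℂ) * ψ n k = 1 := by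
  have e : ∀ k : ℕ, (((1 / 8 : ℝ) ^ k : ℝ) : ℂ) * ψ n k =
      ((if k = 0 then 0 else -((1 / 2 : ℝ) ^ k) : ℝ) : ℂ) + ((if k = n + 1 then 2 else 0 : ℝ) : ℂ) := by
    intro k
    unfold ψ
    rw [mul_add]
    congr 1
    · split_ifs
      · simp
      · push_cast
        rw [mul_neg, ← mul_pow]
        norm_num
    · split_ifs with h
      · subst h
        push_cast
        rw [mul_left_comm, ← mul_pow]
        norm_num
      · simp
  simp_rw [e, ← Complex.ofReal_add]
  rw [← Complex.ofReal_tsum]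
  have s1 : HasSum (fun k : ℕ => if k = 0 then (0 : ℝ) else -((1 / 2 : ℝ) ^ k)) (-1) := by
    have h1 : HasSum (fun k : ℕ => -((1 / 2 : ℝ) ^ k)) (-2) := hasSum_geometric_two.neg
    have h2 : HasSum (fun k : ℕ => if k = 0 then (1 : ℝ) else 0) 1 := hasSum_ite_eq 0 1
    have h3 := h1.add h2
    have e2 : (fun k : ℕ => if k = 0 then (0 : ℝ) else -((1 / 2 : ℝ) ^ k)) =
        fun k : ℕ => -((1 / 2 : ℝ) ^ k) + if k = 0 then (1 : ℝ) else 0 := by
      funext k
      split_ifs with h
      · subst h; norm_num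
      · ring
    rw [e2]
    norm_num at h3 ⊢
    exact h3
  have s2 : HasSum (fun k : ℕ => if k = n + 1 then (2 : ℝ) else 0) 2 := hasSum_ite_eq (n + 1) 2
  have := (s1.add s2).tsum_eq
  rw [this]
  norm_num

/-- There are a detailed-balance kernel without absorption satisfying (A), irreducible and with
bounded rates, on a finite measure space, for which `U₁` does not generate a uniformly bounded
`C₀`-semigroup on the weighted space although `ω⁻¹` belongs to it. -/
theorem result : ∃ (Ω : Type) (_ : MeasurableSpace Ω) (ν : Measure Ω) (p : Ω → Ω → ℝ)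
    (ω : Ω → ℝ), Assumptions ν p ω ∧ Irreducible ν p ∧
      (∀ x, rate ν p x ≤ 2 ∧ backRate ν p x ≤ 2) ∧
      Integrable (fun x => (((ω x)⁻¹ : ℝ) : ℂ)) (mu ν ω) ∧
      ¬ GeneratesBounded (OperatorGraph ν p ω) := by
  have hint : Integrable u (mu nu wt) := integrable_of (by norm_num) (by norm_num) norm_u
  refine ⟨ℕ, inferInstance, nu, ker, wt, assumptions, irreducible,
    fun x => ⟨rate_le x, backRate_le x⟩, ?_, ?_⟩
  · refine hint.congr (Eventually.of_forall fun x => ?_)
    simp [u, wt]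
  · rintro ⟨T, M, hT, hU, hM⟩
    have hM0 : 0 ≤ M := (norm_nonneg _).trans (hM 0 le_rfl)
    have hz : Integrable (0 : ℕ → ℂ) (mu nu wt) := integrable_zero _ _ _
    have g1 : OperatorGraph nu ker wt (hint.toL1 u) 0 := by
      have := graph_of (by norm_num) (by norm_num) norm_u hz (by
        rw [tsum_u]
        simp [u]) (by
        intro k hk
        simp [u])
      rwa [Integrable.toL1_zero] at this
    have key : ∀ n : ℕ, ‖hint.toL1 u‖ ≤ M * (2 * (1 / 2) ^ (n + 1)) := by
      intro n
      have hr : Integrable (r n) (mu nu wt) := integrable_of (by norm_num) (by norm_num) (norm_r n)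
      have g2 : OperatorGraph nu ker wt
          ((integrable_of (by norm_num) (by norm_num) (norm_ψ n)).toL1 (ψ n))
          ((hint.sub hr).toL1 (u - r n)) := by
        apply graph_of (by norm_num) (by norm_num) (norm_ψ n) (hint.sub hr)
        · rw [tsum_ψ]
          simp [u, r, ψ]
        · intro k hk
          simp only [Pi.sub_apply, u, r, ψ, hk, if_false]
          simp
          have e2 : ((2 : ℂ) ^ k)⁻¹ * 4 ^ k = 2 ^ k := by
            rw [show (4 : ℂ) = 2 * 2 by norm_num, mul_pow,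
              inv_mul_cancel_left₀ (pow_ne_zero _ two_ne_zero)]
          split_ifs with h
          · subst h
            have e3 : ((2 : ℂ) ^ (n + 1))⁻¹ * 8 ^ (n + 1) = 4 ^ (n + 1) := by
              rw [show (8 : ℂ) = 2 * 4 by norm_num, mul_pow,
                inv_mul_cancel_left₀ (pow_ne_zero _ two_ne_zero)]
            linear_combination -e2 + 2 * e3
          · linear_combination -e2
      have h := abstract_bound hT hM hU g1 (by
        rw [Integrable.toL1_sub _ _ hint hr] at g2
        exact g2)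
      refine h.trans (mul_le_mul_of_nonneg_left ?_ hM0)
      rw [Integrable.norm_toL1_eq_lintegral_norm, lintegral_countable', tsum_eq_single (n + 1)]
      · rw [mu_singleton, ← ENNReal.ofReal_mul (norm_nonneg _),
          ENNReal.toReal_ofReal (by positivity)]
        simp only [r, if_true, norm_mul, norm_pow]
        rw [mul_assoc]
        apply le_of_eq
        have : ‖(2 : ℂ)‖ = 2 := by simp
        have h4 : ‖(4 : ℂ)‖ = 4 := by simp
        rw [this, h4, ← mul_pow]
        norm_num
      · intro k hk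
        simp [r, hk]
    have lim : Tendsto (fun n : ℕ => M * (2 * (1 / 2 : ℝ) ^ (n + 1))) atTop (𝓝 0) := by
      have h1 : Tendsto (fun n : ℕ => (1 / 2 : ℝ) ^ (n + 1)) atTop (𝓝 0) :=
        (tendsto_pow_atTop_nhds_zero_of_lt_one (by norm_num) (by norm_num)).comp
          (tendsto_add_atTop_nat 1)
      simpa using (h1.const_mul 2).const_mul M
    have h0 : ‖hint.toL1 u‖ ≤ 0 := ge_of_tendsto' lim key
    rw [norm_le_zero_iff] at h0
    have e1 : ∀ x, (hint.toL1 u) x = u x := (ae_iff _).mp hint.coeFn_toL1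
    have e2 : ∀ x, (0 : Lp ℂ 1 (mu nu wt)) x = 0 := (ae_iff _).mp (Lp.coeFn_zero ℂ 1 (mu nu wt))
    have := e1 0
    rw [h0, e2] at this
    simp [u] at this

end Pool.Agent.Results.MP_ae1cd8_an.NotUniformlyBounded
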